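import Pool.Agent.H906R2.Arm.Cyl
import Pool.Agent.H863R2.Cyl.Sem3
import Pool.Agent.H863R2.Cyl.Sem4
import Pool.Agent.H863R2.Cyl.Value
import Pool.Agent.H863R2.Cyl.FEx

/-!
Percolation on the even cylinder and cyclic words: the marked face lies on no contractible loop
(`f = 0`) versus the connection `(0,0) ↔ (n,n)` in the periodic lift.
-/

namespace H906.Cyl
open H974 Finset
open Pool.Agent.H863R2.Cyl (Wd Tc rows Lk Rw ix FSpec push)

/-- the state of the plaquette `(j, r)`: `true` if upper left and lower right are connected -/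
def pst (n M : ℕ) (F : Finset Edg) (r : ℕ) (j : Fin (2 * n - 1 + 1)) : Bool :=
  if ((j.val : ℤ) + (r - M)) % 2 = 0 then decide (edz (j.val : ℤ) ((r : ℤ) - M) ∉ F)
  else decide (edz (j.val : ℤ) ((r : ℤ) - M) ∈ F)

/-- the lower rows -/
def dn (n M : ℕ) (F : Finset Edg) : ℕ → Fin (2 * n - 1 + 1) → Bool := fun t => pst n M F t

/-- the upper rows, seen upside down -/
def up (n M : ℕ) (F : Finset Edg) : ℕ → Fin (2 * n - 1 + 1) → Bool :=
  fun t j => !(pst n M F (2 * M - 1 - t) j)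

/-- the vertex of the (lifted) primal face -/
def pv (M : ℕ) (j : ℤ) (r : ℕ) : Vtx := ((j + (r - M)) / 2, (j - (r - M)) / 2)

theorem red_edz {n : ℕ} (s d : ℤ) : red n (edz s d) = edz (s - 2 * n * (s / (2 * n))) d := by
  unfold edz
  have hp : (s - 2 * n * (s / (2 * n)) + d) % 2 = (s + d) % 2 := by
    have : s - 2 * n * (s / (2 * n)) + d = (s + d) + 2 * (-(n * (s / (2 * n)))) := by ring
    rw [this, Int.add_mul_emod_self_left]
  rw [hp]
  by_cases h : (s + d) % 2 = 0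
  · rw [if_pos h, if_pos h]
    simp only [red]
    have h1 : (s + d) / 2 + (s - d) / 2 = s := by omega
    rw [h1]
    have h2 : (s - 2 * n * (s / (2 * n)) + d) / 2 = (s + d) / 2 - n * (s / (2 * n)) := by
      rw [show s - 2 * n * (s / (2 * n)) + d = (s + d) + 2 * (-(n * (s / (2 * n)))) by ring,
        Int.add_mul_ediv_left _ _ (by norm_num)]; ring
    have h3 : (s - 2 * n * (s / (2 * n)) - d) / 2 = (s - d) / 2 - n * (s / (2 * n)) := by
      rw [show s - 2 * n * (s / (2 * n)) - d = (s - d) + 2 * (-(n * (s / (2 * n)))) by ring,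
        Int.add_mul_ediv_left _ _ (by norm_num)]; ring
    rw [h2, h3]
  · rw [if_neg h, if_neg h]
    simp only [red]
    have h1 : (s + d + 1) / 2 + (s - d - 1) / 2 = s := by omega
    rw [h1]
    have h2 : (s - 2 * n * (s / (2 * n)) + d + 1) / 2 = (s + d + 1) / 2 - n * (s / (2 * n)) := by
      rw [show s - 2 * n * (s / (2 * n)) + d + 1 = (s + d + 1) + 2 * (-(n * (s / (2 * n)))) by ring,
        Int.add_mul_ediv_left _ _ (by norm_num)]; ring
    have h3 : (s - 2 * n * (s / (2 * n)) - d - 1) / 2 = (s - d - 1) / 2 - n * (s / (2 * n)) := by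
      rw [show s - 2 * n * (s / (2 * n)) - d - 1 = (s - d - 1) + 2 * (-(n * (s / (2 * n)))) by ring,
        Int.add_mul_ediv_left _ _ (by norm_num)]; ring
    rw [h2, h3]

theorem ix_val {n : ℕ} (hn : 0 < n) (j : ℤ) :
    ((ix (2 * n - 1) (j % ((2 * n - 1 : ℕ) + 1 : ℤ)).toNat).val : ℤ) = j - 2 * n * (j / (2 * n)) := by
  have h0 : ((2 * n - 1 : ℕ) + 1 : ℤ) = 2 * n := by omega
  rw [h0]
  have h1 := Int.emod_nonneg j (show (2 * n : ℤ) ≠ 0 by omega)
  have h2 := Int.emod_lt_of_pos j (show (0 : ℤ) < 2 * n by omega)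
  have h3 := Int.emod_def j (2 * n : ℤ)
  rw [← h3]
  unfold Pool.Agent.H863R2.Cyl.ix
  simp only
  rw [Nat.mod_eq_of_lt (by omega)]
  omega

/-- the state of the lifted plaquette in terms of the lifted configuration -/
theorem cl_pst {n : ℕ} (hn : 0 < n) (M : ℕ) (F : Finset Edg) (r : ℕ) (j : ℤ) :
    Pool.Agent.H863R2.Cyl.cl (pst n M F r) j = true ↔
      (if (j + (r - M)) % 2 = 0 then edz j ((r : ℤ) - M) ∉ per n F
        else edz j ((r : ℤ) - M) ∈ per n F) := by
  unfold Pool.Agent.H863R2.Cyl.cl pst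
  rw [ix_val hn]
  have hp : (j - 2 * n * (j / (2 * n)) + ((r : ℤ) - M)) % 2 = (j + (r - M)) % 2 := by
    have : j - 2 * n * (j / (2 * n)) + ((r : ℤ) - M)
        = (j + (r - M)) + 2 * (-(n * (j / (2 * n)))) := by ring
    rw [this, Int.add_mul_emod_self_left]
  rw [hp]
  have hm : edz j ((r : ℤ) - M) ∈ per n F ↔
      edz (j - 2 * n * (j / (2 * n))) ((r : ℤ) - M) ∈ F := by
    show red n _ ∈ F ↔ _
    rw [red_edz]
  by_cases h : (j + ((r : ℤ) - M)) % 2 = 0
  · rw [if_pos h, if_pos h, hm]; simp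
  · rw [if_neg h, if_neg h, hm]; simp

theorem cl_false_iff {n : ℕ} (hn : 0 < n) (M : ℕ) (F : Finset Edg) (r : ℕ) (j : ℤ) :
    Pool.Agent.H863R2.Cyl.cl (pst n M F r) j = false ↔
      (if (j + (r - M)) % 2 = 0 then edz j ((r : ℤ) - M) ∈ per n F
        else edz j ((r : ℤ) - M) ∉ per n F) := by
  have h := cl_pst hn M F r j
  by_cases hp : (j + ((r : ℤ) - M)) % 2 = 0
  · rw [if_pos hp] at h ⊢
    constructor
    · intro h1
      by_contra h2
      rw [h.2 h2] at h1
      exact absurd h1 (by decide)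
    · intro h1
      by_contra h2
      exact h.1 (by simpa using h2) h1
  · rw [if_neg hp] at h ⊢
    constructor
    · intro h1 h2
      rw [h.2 h2] at h1
      exact absurd h1 (by decide)
    · intro h1
      by_contra h2
      exact h1 (h.1 (by simpa using h2))

/-- an open edge links two primal faces -/
theorem adj_even {M r : ℕ} {j : ℤ} {G : Set Edg} (hp : (j + ((r : ℤ) - M)) % 2 = 0)
    (he : edz j ((r : ℤ) - M) ∈ G) : Adj G (pv M j r) (pv M (j + 1) (r + 1)) := by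
  refine ⟨edz j ((r : ℤ) - M), he, Or.inl ?_⟩
  unfold edz pv
  rw [if_pos hp]
  simp only [src_mk, tgt_true, Prod.mk.injEq]
  push_cast
  refine ⟨?_, ?_⟩ <;> first | trivial | omega | (refine ⟨?_, ?_⟩ <;> omega)

theorem adj_odd {M r : ℕ} {j : ℤ} {G : Set Edg} (hp : ¬ (j + ((r : ℤ) - M)) % 2 = 0)
    (he : edz j ((r : ℤ) - M) ∈ G) : Adj G (pv M j (r + 1)) (pv M (j + 1) r) := by
  refine ⟨edz j ((r : ℤ) - M), he, Or.inl ?_⟩
  unfold edz pv
  rw [if_neg hp]
  simp only [src_mk, tgt_false, Prod.mk.injEq]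
  push_cast
  refine ⟨?_, ?_⟩ <;> first | trivial | omega | (refine ⟨?_, ?_⟩ <;> omega)

/-! ### no loop implies a far connection -/

open Classical in
/-- primal faces connected to the origin -/
noncomputable def Hp (n M : ℕ) (F : Finset Edg) (j : ℤ) (r : ℕ) : Prop :=
  (j + ((r : ℤ) - M)) % 2 = 0 ∧ Reach (per n F) (0, 0) (pv M j r)

theorem Hp_link0 {n : ℕ} (hn : 0 < n) {M : ℕ} {F : Finset Edg} {j : ℤ} {r : ℕ}
    (h : Pool.Agent.H863R2.Cyl.cl (pst n M F r) j = false) :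
    Hp n M F j r ↔ Hp n M F (j + 1) (r + 1) := by
  rw [cl_false_iff hn] at h
  unfold Hp
  by_cases hp : (j + ((r : ℤ) - M)) % 2 = 0
  · rw [if_pos hp] at h
    have ha := adj_even hp h
    constructor
    · rintro ⟨-, h2⟩
      exact ⟨by push_cast; omega, h2.trans ha.reach⟩
    · rintro ⟨-, h2⟩
      exact ⟨hp, h2.trans ha.symm.reach⟩
  · constructor
    · rintro ⟨h1, -⟩; exact absurd h1 hp
    · rintro ⟨h1, -⟩; exact absurd (by push_cast at h1; omega) hp

theorem Hp_link1 {n : ℕ} (hn : 0 < n) {M : ℕ} {F : Finset Edg} {j : ℤ} {r : ℕ}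
    (h : Pool.Agent.H863R2.Cyl.cl (pst n M F r) j = true) :
    Hp n M F (j + 1) r ↔ Hp n M F j (r + 1) := by
  rw [cl_pst hn] at h
  unfold Hp
  by_cases hp : (j + ((r : ℤ) - M)) % 2 = 0
  · constructor
    · rintro ⟨h1, -⟩; exfalso; omega
    · rintro ⟨h1, -⟩; exfalso; push_cast at h1; omega
  · rw [if_neg hp] at h
    have ha := adj_odd hp h
    constructor
    · rintro ⟨-, h2⟩
      exact ⟨by push_cast; omega, h2.trans ha.symm.reach⟩
    · rintro ⟨-, h2⟩
      exact ⟨by omega, h2.trans ha.reach⟩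

theorem eqvGen_inv {α : Type*} {r : α → α → Prop} {P : α → Prop} (h : ∀ a b, r a b → (P a ↔ P b))
    {a b : α} (hab : Relation.EqvGen r a b) : P a ↔ P b := by
  induction hab with
  | rel _ _ h1 => exact h _ _ h1
  | refl _ => exact Iff.rfl
  | symm _ _ _ ih => exact ih.symm
  | trans _ _ _ _ _ ih1 ih2 => exact ih1.trans ih2

/-- the lower pattern respects the labelling -/
theorem Hp_dn {n : ℕ} (hn : 0 < n) {M : ℕ} {F : Finset Edg} (hb : ∀ j, ¬ Hp n M F j 0)
    (σ : Wd (2 * n - 1 + 1)) {a b : ℤ} (h : Rw (rows (2 * n - 1) (dn n M F) M σ).1 a b) :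
    Hp n M F a M ↔ Hp n M F b M := by
  rw [Pool.Agent.H863R2.Cyl.Rw_rows _ (by omega)] at h
  refine eqvGen_inv (P := fun p : ℤ × ℕ => Hp n M F p.1 p.2) ?_ h
  rintro _ _ (⟨a, b, _⟩ | ⟨j, t, _, hc⟩ | ⟨j, t, _, hc⟩)
  · exact ⟨fun h => absurd h (hb _), fun h => absurd h (hb _)⟩
  · exact Hp_link0 hn hc
  · exact Hp_link1 hn hc

theorem Hp_up {n : ℕ} (hn : 0 < n) {M : ℕ} {F : Finset Edg} (hb : ∀ j, ¬ Hp n M F j (2 * M))
    (τ : Wd (2 * n - 1 + 1)) {a b : ℤ} (h : Rw (rows (2 * n - 1) (up n M F) M τ).1 a b) :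
    Hp n M F a M ↔ Hp n M F b M := by
  rw [Pool.Agent.H863R2.Cyl.Rw_rows _ (by omega)] at h
  have key := eqvGen_inv (P := fun p : ℤ × ℕ => Hp n M F p.1 (2 * M - p.2)) ?_ h
  · simp only at key
    rw [show 2 * M - M = M by omega] at key
    exact key
  rintro _ _ (⟨a, b, _⟩ | ⟨j, t, ht, hc⟩ | ⟨j, t, ht, hc⟩)
  · simp only [Nat.sub_zero]
    exact ⟨fun h => absurd h (hb _), fun h => absurd h (hb _)⟩
  · have hc' : Pool.Agent.H863R2.Cyl.cl (pst n M F (2 * M - 1 - t)) j = true := by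
      unfold Pool.Agent.H863R2.Cyl.cl up at hc
      unfold Pool.Agent.H863R2.Cyl.cl
      simpa using hc
    have := Hp_link1 hn hc'
    simp only
    rw [show 2 * M - t = 2 * M - 1 - t + 1 by omega, show 2 * M - (t + 1) = 2 * M - 1 - t by omega]
    exact this.symm
  · have hc' : Pool.Agent.H863R2.Cyl.cl (pst n M F (2 * M - 1 - t)) j = false := by
      unfold Pool.Agent.H863R2.Cyl.cl up at hc
      unfold Pool.Agent.H863R2.Cyl.cl
      simpa using hc
    have := Hp_link0 hn hc'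
    simp only
    rw [show 2 * M - t = 2 * M - 1 - t + 1 by omega, show 2 * M - (t + 1) = 2 * M - 1 - t by omega]
    exact this.symm

theorem f_iff {f : List Bool → List Bool → ℕ} (hf : FSpec f) {n : ℕ} (hn : 0 < n)
    (a b : Wd (2 * n - 1 + 1)) : f a.1 b.1 = 0 ↔
      Relation.EqvGen (fun j k => Rw a.1 j k ∨ Rw b.1 j k) 0 (2 * n) :=
  Pool.Agent.H863R2.Cyl.f_zero_iff hf a.2.2 b.2.2 (by rw [a.2.1]; omega) (by rw [b.2.1]; omega)

/-- if there is no loop around the marked face then its cluster reaches far -/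
theorem far_of_zero {f : List Bool → List Bool → ℕ} (hf : FSpec f) {n M k : ℕ} (hn : 0 < n)
    (hk : k ≤ n) (hM : 2 * k ≤ M) {F : Finset Edg} (σ τ : Wd (2 * n - 1 + 1))
    (h : f (rows (2 * n - 1) (dn n M F) M σ).1 (rows (2 * n - 1) (up n M F) M τ).1 = 0) :
    ∃ w : Vtx, (w.1 ≤ -k ∨ (k : ℤ) ≤ w.1 ∨ w.2 ≤ -k ∨ (k : ℤ) ≤ w.2) ∧
      Reach (per n F) (0, 0) w := by
  by_contra hcon
  push Not at hcon
  have hfar : ∀ w : Vtx, Reach (per n F) (0, 0) w →
      (-(k : ℤ) < w.1 ∧ w.1 < k) ∧ (-(k : ℤ) < w.2 ∧ w.2 < k) := by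
    intro w hw
    by_contra h1
    exact hcon w (by omega) hw
  have hb0 : ∀ j, ¬ Hp n M F j 0 := by
    rintro j ⟨h1, h2⟩
    have := hfar _ h2
    unfold pv at this
    simp only at this
    push_cast at this h1
    omega
  have hb1 : ∀ j, ¬ Hp n M F j (2 * M) := by
    rintro j ⟨h1, h2⟩
    have := hfar _ h2
    unfold pv at this
    simp only at this
    push_cast at this h1
    omega
  rw [f_iff hf hn] at h
  have key := eqvGen_inv (P := fun j : ℤ => Hp n M F j M) ?_ h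
  · have h0 : Hp n M F 0 M := by
      refine ⟨by simp, ?_⟩
      unfold pv
      simp only [sub_self, add_zero, Int.zero_ediv, sub_zero]
      exact Reach.refl _ _
    obtain ⟨-, h2⟩ := key.1 h0
    have := hfar _ h2
    unfold pv at this
    simp only at this
    omega
  · rintro a b (h1 | h1)
    · exact Hp_dn hn hb0 σ h1
    · exact Hp_up hn hb1 τ h1

/-! ### a winding connection implies that there is no loop -/

theorem edz_of (e : Edg) : edz (e.1 + e.2.1) (dco e) = e := by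
  obtain ⟨x, y, _ | _⟩ := e
  · unfold edz dco
    simp only [Bool.false_eq_true, if_false]
    rw [if_neg (by omega)]
    simp only [Prod.mk.injEq, and_true]
    omega
  · unfold edz dco
    simp only [if_true]
    rw [if_pos (by omega)]
    simp only [Prod.mk.injEq, and_true]
    omega

/-- the link given by an open edge of the lower half -/
theorem link_dn {n M : ℕ} (hn : 0 < n) {F : Finset Edg} (σ : List Bool) {e : Edg}
    (he : e ∈ per n F) (h1 : -(M : ℤ) ≤ dco e) (h2 : dco e < 0) :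
    (src e).1 - (src e).2 ≤ 0 ∧ (tgt e).1 - (tgt e).2 ≤ 0 ∧ -(M : ℤ) ≤ (src e).1 - (src e).2 ∧
    -(M : ℤ) ≤ (tgt e).1 - (tgt e).2 ∧
    Relation.EqvGen (Lk (2 * n - 1) (dn n M F) M σ)
      ((src e).1 + (src e).2, ((src e).1 - (src e).2 + M).toNat)
      ((tgt e).1 + (tgt e).2, ((tgt e).1 - (tgt e).2 + M).toNat) := by
  have hed := edz_of e
  obtain ⟨x, y, _ | _⟩ := e
  · simp only [dco, Bool.false_eq_true, if_false] at h1 h2 hed
    simp only [src_mk, tgt_false]
    refine ⟨by omega, by omega, by omega, by omega, ?_⟩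
    obtain ⟨r, hr⟩ : ∃ r : ℕ, (r : ℤ) = x - y - 1 + M := ⟨(x - y - 1 + M).toNat, by omega⟩
    have e1 : (x - y + (M : ℤ)).toNat = r + 1 := by omega
    have e2 : (x - (y + 1) + (M : ℤ)).toNat = r := by omega
    have e3 : x + (y + 1) = (x + y) + 1 := by ring
    rw [e1, e2, e3]
    have hrM : (r : ℤ) - M = x - y - 1 := by omega
    refine (Relation.EqvGen.rel _ _ (Lk.link1 (x + y) r (by omega) ?_)).symm
    unfold dn
    rw [cl_pst hn, if_neg (by omega), hrM, hed]
    exact he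
  · simp only [dco, if_true] at h1 h2 hed
    simp only [src_mk, tgt_true]
    refine ⟨by omega, by omega, by omega, by omega, ?_⟩
    obtain ⟨r, hr⟩ : ∃ r : ℕ, (r : ℤ) = x - y + M := ⟨(x - y + M).toNat, by omega⟩
    have e1 : (x - y + (M : ℤ)).toNat = r := by omega
    have e2 : (x + 1 - y + (M : ℤ)).toNat = r + 1 := by omega
    have e3 : x + 1 + y = (x + y) + 1 := by ring
    rw [e1, e2, e3]
    have hrM : (r : ℤ) - M = x - y := by omega
    refine Relation.EqvGen.rel _ _ (Lk.link0 (x + y) r (by omega) ?_)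
    unfold dn
    rw [cl_false_iff hn, if_pos (by omega), hrM, hed]
    exact he

theorem cl_up {n M : ℕ} {F : Finset Edg} {r : ℕ} (hr : r < 2 * M) {j : ℤ} {b : Bool}
    (hb : Pool.Agent.H863R2.Cyl.cl (pst n M F r) j = b) :
    Pool.Agent.H863R2.Cyl.cl (up n M F (2 * M - 1 - r)) j = !b := by
  unfold Pool.Agent.H863R2.Cyl.cl at hb ⊢
  unfold up
  rw [show 2 * M - 1 - (2 * M - 1 - r) = r by omega, hb]

/-- the link given by an open edge of the upper half -/
theorem link_up {n M : ℕ} (hn : 0 < n) {F : Finset Edg} (τ : List Bool) {e : Edg}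
    (he : e ∈ per n F) (h1 : 0 ≤ dco e) (h2 : dco e < M) :
    0 ≤ (src e).1 - (src e).2 ∧ 0 ≤ (tgt e).1 - (tgt e).2 ∧ (src e).1 - (src e).2 ≤ M ∧
    (tgt e).1 - (tgt e).2 ≤ M ∧
    Relation.EqvGen (Lk (2 * n - 1) (up n M F) M τ)
      ((src e).1 + (src e).2, (M - ((src e).1 - (src e).2)).toNat)
      ((tgt e).1 + (tgt e).2, (M - ((tgt e).1 - (tgt e).2)).toNat) := by
  have hed := edz_of e
  obtain ⟨x, y, _ | _⟩ := e
  · simp only [dco, Bool.false_eq_true, if_false] at h1 h2 hed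
    simp only [src_mk, tgt_false]
    refine ⟨by omega, by omega, by omega, by omega, ?_⟩
    obtain ⟨r, hr⟩ : ∃ r : ℕ, (r : ℤ) = x - y - 1 + M := ⟨(x - y - 1 + M).toNat, by omega⟩
    have e1 : ((M : ℤ) - (x - y)).toNat = 2 * M - 1 - r := by omega
    have e2 : ((M : ℤ) - (x - (y + 1))).toNat = 2 * M - 1 - r + 1 := by omega
    have e3 : x + (y + 1) = (x + y) + 1 := by ring
    rw [e1, e2, e3]
    have hrM : (r : ℤ) - M = x - y - 1 := by omega
    refine Relation.EqvGen.rel _ _ (Lk.link0 (x + y) (2 * M - 1 - r) (by omega) ?_)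
    refine cl_up (by omega) (b := true) ?_
    rw [cl_pst hn, if_neg (by omega), hrM, hed]
    exact he
  · simp only [dco, if_true] at h1 h2 hed
    simp only [src_mk, tgt_true]
    refine ⟨by omega, by omega, by omega, by omega, ?_⟩
    obtain ⟨r, hr⟩ : ∃ r : ℕ, (r : ℤ) = x - y + M := ⟨(x - y + M).toNat, by omega⟩
    have e1 : ((M : ℤ) - (x - y)).toNat = 2 * M - 1 - r + 1 := by omega
    have e2 : ((M : ℤ) - (x + 1 - y)).toNat = 2 * M - 1 - r := by omega
    have e3 : x + 1 + y = (x + y) + 1 := by ring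
    rw [e1, e2, e3]
    have hrM : (r : ℤ) - M = x - y := by omega
    refine (Relation.EqvGen.rel _ _ (Lk.link1 (x + y) (2 * M - 1 - r) (by omega) ?_)).symm
    refine cl_up (by omega) (b := false) ?_
    rw [cl_false_iff hn, if_pos (by omega), hrM, hed]
    exact he

theorem zero_of_reach {f : List Bool → List Bool → ℕ} (hf : FSpec f) {n M : ℕ} (hn : 0 < n)
    {F : Finset Edg} (hF : F ⊆ CE n M) (σ τ : Wd (2 * n - 1 + 1))
    (h : Reach (per n F) (0, 0) (n, n)) :
    f (rows (2 * n - 1) (dn n M F) M σ).1 (rows (2 * n - 1) (up n M F) M τ).1 = 0 := by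
  rw [f_iff hf hn]
  set wd := (rows (2 * n - 1) (dn n M F) M σ).1 with hwd
  set wu := (rows (2 * n - 1) (up n M F) M τ).1 with hwu
  set E : ℤ → ℤ → Prop := Relation.EqvGen (fun j k => Rw wd j k ∨ Rw wu j k) with hE
  -- at level `M` the two descriptions agree
  have agree1 : ∀ s : ℤ, (∃ a, E 0 a ∧ Relation.EqvGen (Lk (2 * n - 1) (dn n M F) M σ.1) (a, M)
      (s, M)) → E 0 s := by
    rintro s ⟨a, h1, h2⟩
    rw [← Pool.Agent.H863R2.Cyl.Rw_rows _ (by omega)] at h2
    exact h1.trans _ _ _ (Relation.EqvGen.rel _ _ (Or.inl h2))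
  have agree2 : ∀ s : ℤ, (∃ a, E 0 a ∧ Relation.EqvGen (Lk (2 * n - 1) (up n M F) M τ.1) (a, M)
      (s, M)) → E 0 s := by
    rintro s ⟨a, h1, h2⟩
    rw [← Pool.Agent.H863R2.Cyl.Rw_rows _ (by omega)] at h2
    exact h1.trans _ _ _ (Relation.EqvGen.rel _ _ (Or.inr h2))
  -- invariant along the path
  have key : ∀ v : Vtx, Reach (per n F) (0, 0) v →
      (v.1 - v.2 ≤ 0 → ∃ a, E 0 a ∧ Relation.EqvGen (Lk (2 * n - 1) (dn n M F) M σ.1) (a, M)
        (v.1 + v.2, (v.1 - v.2 + M).toNat)) ∧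
      (0 ≤ v.1 - v.2 → ∃ a, E 0 a ∧ Relation.EqvGen (Lk (2 * n - 1) (up n M F) M τ.1) (a, M)
        (v.1 + v.2, (M - (v.1 - v.2)).toNat)) := by
    intro v hv
    induction hv with
    | refl =>
      constructor
      · intro _
        refine ⟨0, Relation.EqvGen.refl _, ?_⟩
        have e1 : ((0 : ℤ) - 0 + M).toNat = M := by omega
        have e2 : (0 : ℤ) + 0 = 0 := by norm_num
        simp only
        rw [e1, e2]
        exact Relation.EqvGen.refl _
      · intro _
        refine ⟨0, Relation.EqvGen.refl _, ?_⟩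
        have e1 : ((M : ℤ) - (0 - 0)).toNat = M := by omega
        have e2 : (0 : ℤ) + 0 = 0 := by norm_num
        simp only
        rw [e1, e2]
        exact Relation.EqvGen.refl _
    | @tail u v _ hs ih =>
      obtain ⟨e, he, hcase⟩ := hs
      have hd : -(M : ℤ) ≤ dco e ∧ dco e < M := by
        have := (mem_CE.1 (hF he)).2
        rwa [dco_red] at this
      by_cases hneg : dco e < 0
      · obtain ⟨k1, k2, k3, k4, k5⟩ := link_dn hn σ.1 he hd.1 hneg
        have k6 : u.1 - u.2 ≤ 0 ∧ v.1 - v.2 ≤ 0 ∧ Relation.EqvGen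
            (Lk (2 * n - 1) (dn n M F) M σ.1) (u.1 + u.2, (u.1 - u.2 + M).toNat)
            (v.1 + v.2, (v.1 - v.2 + M).toNat) := by
          rcases hcase with ⟨h3, h4⟩ | ⟨h3, h4⟩
          · rw [h3] at k1 k5; rw [h4] at k2 k5; exact ⟨k1, k2, k5⟩
          · rw [h3] at k1 k5; rw [h4] at k2 k5; exact ⟨k2, k1, k5.symm⟩
        obtain ⟨k7, k8, k9⟩ := k6
        obtain ⟨a, h5, h6⟩ := ih.1 k7
        have h7 := h6.trans _ _ _ k9
        refine ⟨fun _ => ⟨a, h5, h7⟩, fun h8 => ?_⟩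
        have h9 : v.1 - v.2 = 0 := by omega
        have e1 : (v.1 - v.2 + (M : ℤ)).toNat = M := by omega
        have e2 : ((M : ℤ) - (v.1 - v.2)).toNat = M := by omega
        rw [e1] at h7
        rw [e2]
        exact ⟨_, agree1 _ ⟨a, h5, h7⟩, Relation.EqvGen.refl _⟩
      · obtain ⟨k1, k2, k3, k4, k5⟩ := link_up hn τ.1 he (by omega) hd.2
        have k6 : 0 ≤ u.1 - u.2 ∧ 0 ≤ v.1 - v.2 ∧ Relation.EqvGen
            (Lk (2 * n - 1) (up n M F) M τ.1) (u.1 + u.2, (M - (u.1 - u.2)).toNat)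
            (v.1 + v.2, (M - (v.1 - v.2)).toNat) := by
          rcases hcase with ⟨h3, h4⟩ | ⟨h3, h4⟩
          · rw [h3] at k1 k5; rw [h4] at k2 k5; exact ⟨k1, k2, k5⟩
          · rw [h3] at k1 k5; rw [h4] at k2 k5; exact ⟨k2, k1, k5.symm⟩
        obtain ⟨k7, k8, k9⟩ := k6
        obtain ⟨a, h5, h6⟩ := ih.2 k7
        have h7 := h6.trans _ _ _ k9
        refine ⟨fun h8 => ?_, fun _ => ⟨a, h5, h7⟩⟩
        have h9 : v.1 - v.2 = 0 := by omega
        have e1 : (v.1 - v.2 + (M : ℤ)).toNat = M := by omega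
        have e2 : ((M : ℤ) - (v.1 - v.2)).toNat = M := by omega
        rw [e2] at h7
        rw [e1]
        exact ⟨_, agree2 _ ⟨a, h5, h7⟩, Relation.EqvGen.refl _⟩
  have h1 := (key _ h).1 (by simp)
  have e1 : ((n : ℤ) - n + M).toNat = M := by omega
  have e2 : (n : ℤ) + n = 2 * n := by ring
  simp only at h1
  rw [e1, e2] at h1
  exact agree1 _ h1

end H906.Cyl
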