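import Pool.Agent.H906R2.Arm.Link

/-!
The exact value on the infinite even cylinder as a probability in a finite cylinder.
-/

namespace H906.Cyl
open H974 Finset
open Pool.Agent.H863R2.Cyl (Wd Tc rows Lk Rw ix FSpec push oneArm)

/-- extension of finitely many rows to a sequence of rows -/
def ext {X : Type*} [Inhabited X] {M : ℕ} (c : Fin M → X) : ℕ → X :=
  fun t => if h : t < M then c ⟨t, h⟩ else default

theorem rows_congr {m : ℕ} {c c' : ℕ → Fin (m + 1) → Bool} {M : ℕ} (h : ∀ t < M, c t = c' t)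
    (σ : Wd (m + 1)) : rows m c M σ = rows m c' M σ := by
  induction M with
  | zero => rfl
  | succ M ih =>
    show Tc m (c M) (rows m c M σ) = Tc m (c' M) (rows m c' M σ)
    rw [ih (fun t ht => h t (by omega)), h M (by omega)]

theorem sum_push_mul {X Y : Type*} [Fintype X] [Fintype Y] [DecidableEq Y] (g : X → Y)
    (v : X → ℝ) (f : Y → ℝ) : ∑ y, push g v y * f y = ∑ x, v x * f (g x) := by
  unfold Pool.Agent.H863R2.Cyl.push
  simp only [Finset.sum_mul]
  rw [Finset.sum_comm]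
  apply Finset.sum_congr rfl
  intro x _
  rw [Finset.sum_eq_single (g x)]
  · simp
  · intro y _ hy
    rw [if_neg (fun h => hy h.symm), zero_mul]
  · simp

theorem rows_stat {m : ℕ} {μ : Wd (m + 1) → ℝ}
    (hst : ∀ σ, ∑ c : Fin (m + 1) → Bool, push (Tc m c) μ σ = 2 ^ (m + 1) * μ σ) (M : ℕ) :
    ∀ f : Wd (m + 1) → ℝ,
    ∑ c : Fin M → (Fin (m + 1) → Bool), ∑ σ, μ σ * f (rows m (ext c) M σ)
      = (2 ^ (m + 1)) ^ M * ∑ σ, μ σ * f σ := by
  induction M with
  | zero =>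
    intro f
    simp [Pool.Agent.H863R2.Cyl.rows]
  | succ M ih =>
    intro f
    have e : ∑ c : Fin (M + 1) → (Fin (m + 1) → Bool), ∑ σ, μ σ * f (rows m (ext c) (M + 1) σ)
        = ∑ p : (Fin (m + 1) → Bool) × (Fin M → (Fin (m + 1) → Bool)),
          ∑ σ, μ σ * f (Tc m p.1 (rows m (ext p.2) M σ)) := by
      apply Fintype.sum_equiv (Fin.snocEquiv (fun _ => Fin (m + 1) → Bool)).symm
      intro c
      apply Finset.sum_congr rfl
      intro σ _
      have h1 : ext c M = c (Fin.last M) := by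
        unfold ext; rw [dif_pos (Nat.lt_succ_self M)]; rfl
      have h2 : rows m (ext c) M σ = rows m (ext (fun i : Fin M => c i.castSucc)) M σ := by
        apply rows_congr
        intro t ht
        unfold ext
        rw [dif_pos (by omega), dif_pos ht]
        rfl
      show μ σ * f (Tc m (ext c M) (rows m (ext c) M σ)) = _
      rw [h1, h2]
      rfl
    rw [e, Fintype.sum_prod_type]
    have e2 : ∀ x : Fin (m + 1) → Bool, ∑ y : Fin M → (Fin (m + 1) → Bool),
        ∑ σ, μ σ * f (Tc m x (rows m (ext y) M σ))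
        = (2 ^ (m + 1)) ^ M * ∑ σ, μ σ * f (Tc m x σ) := fun x => ih (fun σ => f (Tc m x σ))
    simp only [e2]
    rw [← Finset.mul_sum]
    have e3 : ∀ x : Fin (m + 1) → Bool, ∑ σ, μ σ * f (Tc m x σ)
        = ∑ σ, push (Tc m x) μ σ * f σ := fun x => (sum_push_mul _ _ _).symm
    simp only [e3]
    rw [Finset.sum_comm]
    simp only [← Finset.sum_mul, hst]
    rw [pow_succ (2 ^ (m + 1)) M, mul_assoc ((2 ^ (m + 1)) ^ M)]
    congr 1
    rw [Finset.mul_sum]
    apply Finset.sum_congr rfl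
    intro σ _
    ring

theorem mem_CE' {n M : ℕ} {e : Edg} : e ∈ CE n M ↔
    ∃ j r : ℕ, j < 2 * n ∧ r < 2 * M ∧ edz (j : ℤ) ((r : ℤ) - M) = e := by
  unfold CE
  simp only [mem_image, mem_product, mem_range, Prod.exists]
  constructor
  · rintro ⟨j, r, ⟨h1, h2⟩, h3⟩; exact ⟨j, r, h1, h2, h3⟩
  · rintro ⟨j, r, h1, h2, h3⟩; exact ⟨j, r, ⟨h1, h2⟩, h3⟩

theorem edz_inj {s d s' d' : ℤ} (h : edz s d = edz s' d') : s = s' ∧ d = d' := by
  unfold edz at h
  split_ifs at h with h1 h2 h2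
  all_goals simp only [Prod.mk.injEq] at h
  all_goals first | (exfalso; exact absurd h.2.2 (by decide)) | skip
  · obtain ⟨ha, hb, -⟩ := h
    constructor <;> omega
  · obtain ⟨ha, hb, -⟩ := h
    constructor <;> omega

/-- the configuration with prescribed plaquettes -/
def FS (n M : ℕ) (b : ℕ → Fin (2 * n - 1 + 1) → Bool) : Finset Edg :=
  ((Finset.univ ×ˢ Finset.range (2 * M) : Finset (Fin (2 * n - 1 + 1) × ℕ)).filter (fun p =>
    (if ((p.1.val : ℤ) + ((p.2 : ℤ) - M)) % 2 = 0 then !(b p.2 p.1) else b p.2 p.1) = true)).image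
      (fun p => edz (p.1.val : ℤ) ((p.2 : ℤ) - M))

theorem FS_sub {n : ℕ} (hn : 0 < n) (M : ℕ) (b : ℕ → Fin (2 * n - 1 + 1) → Bool) :
    FS n M b ⊆ CE n M := by
  intro e he
  unfold FS at he
  simp only [mem_image, mem_filter, mem_product, mem_range, Prod.exists] at he
  obtain ⟨j, r, ⟨⟨-, h2⟩, -⟩, h4⟩ := he
  exact mem_CE'.2 ⟨j.val, r, by have := j.2; omega, h2, h4⟩

theorem mem_FS {n M : ℕ} {b : ℕ → Fin (2 * n - 1 + 1) → Bool} {j : Fin (2 * n - 1 + 1)} {r : ℕ}
    (hr : r < 2 * M) : edz (j.val : ℤ) ((r : ℤ) - M) ∈ FS n M b ↔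
      (if ((j.val : ℤ) + ((r : ℤ) - M)) % 2 = 0 then !(b r j) else b r j) = true := by
  unfold FS
  simp only [mem_image, mem_filter, mem_product, mem_range, Prod.exists]
  constructor
  · rintro ⟨j', r', ⟨⟨-, h2⟩, h3⟩, h4⟩
    obtain ⟨h5, h6⟩ := edz_inj h4
    have h7 : j' = j := Fin.ext (by omega)
    have h8 : r' = r := by omega
    subst h7; subst h8
    exact h3
  · intro h
    exact ⟨j, r, ⟨⟨Finset.mem_univ _, hr⟩, h⟩, rfl⟩

theorem pst_FS {n M : ℕ} {b : ℕ → Fin (2 * n - 1 + 1) → Bool} {j : Fin (2 * n - 1 + 1)} {r : ℕ}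
    (hr : r < 2 * M) : pst n M (FS n M b) r j = b r j := by
  have hm := mem_FS (b := b) (j := j) hr
  unfold pst
  by_cases h : ((j.val : ℤ) + ((r : ℤ) - M)) % 2 = 0
  · simp only [if_pos h] at hm ⊢
    cases hb : b r j
    · rw [hb] at hm
      simpa using hm
    · rw [hb] at hm
      simpa using hm
  · simp only [if_neg h] at hm ⊢
    cases hb : b r j
    · rw [hb] at hm
      simpa using hm
    · rw [hb] at hm
      simpa using hm

theorem FS_pst {n M : ℕ} (hn : 0 < n) {F : Finset Edg} (hF : F ⊆ CE n M) :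
    FS n M (pst n M F) = F := by
  ext e
  constructor
  · intro he
    obtain ⟨j, r, hj, hr, rfl⟩ := mem_CE'.1 (FS_sub hn _ _ he)
    have := (mem_FS (n := n) (j := ⟨j, by omega⟩) hr).1 he
    unfold pst at this
    by_cases h : ((j : ℤ) + ((r : ℤ) - M)) % 2 = 0
    · simp only [if_pos h, Bool.not_eq_true', decide_eq_false_iff_not, not_not] at this
      exact this
    · simp only [if_neg h, decide_eq_true_eq] at this
      exact this
  · intro he
    obtain ⟨j, r, hj, hr, rfl⟩ := mem_CE'.1 (hF he)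
    refine (mem_FS (n := n) (j := ⟨j, by omega⟩) hr).2 ?_
    unfold pst
    by_cases h : ((j : ℤ) + ((r : ℤ) - M)) % 2 = 0
    · simp only [if_pos h, Bool.not_eq_true', decide_eq_false_iff_not, not_not]
      exact he
    · simp only [if_neg h, decide_eq_true_eq]
      exact he

theorem FS_congr {n M : ℕ} {b b' : ℕ → Fin (2 * n - 1 + 1) → Bool} (h : ∀ r < 2 * M, b r = b' r) :
    FS n M b = FS n M b' := by
  unfold FS
  congr 1
  apply Finset.filter_congr
  intro p hp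
  simp only [mem_product, mem_range] at hp
  rw [h p.2 hp.2]

/-- combination of lower and upper rows -/
def comb (n M : ℕ) (a b : Fin M → (Fin (2 * n - 1 + 1) → Bool)) : ℕ → Fin (2 * n - 1 + 1) → Bool :=
  fun r => if r < M then ext a r else fun j => !(ext b (2 * M - 1 - r) j)

theorem sum_config {n M : ℕ} (hn : 0 < n) (G : (Fin M → (Fin (2 * n - 1 + 1) → Bool)) →
      (Fin M → (Fin (2 * n - 1 + 1) → Bool)) → ℝ) :
    ∑ F ∈ (CE n M).powerset, G (fun t => dn n M F t) (fun t => up n M F t)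
      = ∑ a, ∑ b, G a b := by
  rw [← Fintype.sum_prod_type']
  apply Finset.sum_nbij' (fun F => ((fun t : Fin M => dn n M F t), (fun t : Fin M => up n M F t)))
    (fun p => FS n M (comb n M p.1 p.2))
  · intro F _; exact Finset.mem_univ _
  · intro p _; exact Finset.mem_powerset.2 (FS_sub hn _ _)
  · intro F hF
    have hF' := Finset.mem_powerset.1 hF
    conv_rhs => rw [← FS_pst hn hF']
    apply FS_congr
    intro r hr
    unfold comb
    by_cases h : r < M
    · rw [if_pos h]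
      unfold ext
      rw [dif_pos h]
      rfl
    · rw [if_neg h]
      unfold ext
      rw [dif_pos (by omega : 2 * M - 1 - r < M)]
      funext j
      simp only [up]
      rw [show 2 * M - 1 - (2 * M - 1 - r) = r by omega]
      simp
  · rintro ⟨a, b⟩ _
    simp only [Prod.mk.injEq]
    constructor
    · funext t j
      show pst n M (FS n M (comb n M a b)) t j = a t j
      rw [pst_FS (by omega)]
      unfold comb ext
      rw [if_pos t.2, dif_pos t.2]
    · funext t j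
      show (!(pst n M (FS n M (comb n M a b)) (2 * M - 1 - t) j)) = b t j
      have ht := t.2
      rw [pst_FS (by omega)]
      unfold comb ext
      rw [if_neg (by omega)]
      simp only [Bool.not_not]
      rw [dif_pos (by omega : 2 * M - 1 - (2 * M - 1 - t.val) < M)]
      have e : (⟨2 * M - 1 - (2 * M - 1 - t.val), by omega⟩ : Fin M) = t := by
        apply Fin.ext
        show 2 * M - 1 - (2 * M - 1 - t.val) = t.val
        omega
      rw [e]
  · intro F _
    rfl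

theorem card_CE (n M : ℕ) : (CE n M).card = (2 * n) * (2 * M) := by
  unfold CE
  rw [Finset.card_image_of_injective, Finset.card_product, Finset.card_range, Finset.card_range]
  rintro ⟨j, r⟩ ⟨j', r'⟩ h
  obtain ⟨h1, h2⟩ := edz_inj h
  exact Prod.ext (by simp only; omega) (by simp only; omega)

theorem Pr_half (S : Finset Edg) (A : Finset Edg → Prop) :
    Pr (fun _ => 1/2) S A = (1/2)^S.card * ∑ F ∈ S.powerset, ind (A F) := by
  unfold Pr Ex
  rw [Finset.mul_sum]
  apply Finset.sum_congr rfl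
  intro F hF
  have hF' := Finset.mem_powerset.1 hF
  rw [Finset.prod_const, Finset.prod_const]
  rw [show (1 - 1/2 : ℝ) = 1/2 by norm_num, ← pow_add, Finset.card_sdiff_of_subset hF']
  congr 2
  have := Finset.card_le_card hF'
  omega

/-- averages over the rows -/
theorem avg_rows {m : ℕ} {μ : Wd (m + 1) → ℝ}
    (hst : ∀ σ, ∑ c : Fin (m + 1) → Bool, push (Tc m c) μ σ = 2 ^ (m + 1) * μ σ) (M : ℕ)
    (g : Wd (m + 1) → Wd (m + 1) → ℝ) :
    ∑ a : Fin M → (Fin (m + 1) → Bool), ∑ b : Fin M → (Fin (m + 1) → Bool),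
      ∑ σ, ∑ τ, μ σ * μ τ * g (rows m (ext a) M σ) (rows m (ext b) M τ)
      = (2 ^ (m + 1)) ^ M * ((2 ^ (m + 1)) ^ M * ∑ σ, ∑ τ, μ σ * μ τ * g σ τ) := by
  have s1 : ∀ a : Fin M → (Fin (m + 1) → Bool), ∑ b : Fin M → (Fin (m + 1) → Bool),
    ∑ σ, ∑ τ, μ σ * μ τ * g (rows m (ext a) M σ) (rows m (ext b) M τ)
    = (2 ^ (m + 1)) ^ M * ∑ τ, μ τ * (∑ σ, μ σ * g (rows m (ext a) M σ) τ) := by
    intro a
    rw [← rows_stat hst M (fun τ => ∑ σ, μ σ * g (rows m (ext a) M σ) τ)]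
    apply Finset.sum_congr rfl
    intro b _
    rw [Finset.sum_comm]
    apply Finset.sum_congr rfl
    intro τ _
    rw [Finset.mul_sum]
    apply Finset.sum_congr rfl
    intro σ _
    ring
  simp only [s1]
  rw [← Finset.mul_sum]
  congr 1
  have s2 : ∑ a : Fin M → (Fin (m + 1) → Bool),
      ∑ τ, μ τ * (∑ σ, μ σ * g (rows m (ext a) M σ) τ)
      = ∑ a : Fin M → (Fin (m + 1) → Bool),
        ∑ σ, μ σ * (fun σ' : Wd (m + 1) => ∑ τ, μ τ * g σ' τ) (rows m (ext a) M σ) := by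
    apply Finset.sum_congr rfl
    intro a _
    simp only [Finset.mul_sum]
    rw [Finset.sum_comm]
    apply Finset.sum_congr rfl
    intro τ _
    apply Finset.sum_congr rfl
    intro σ _
    ring
  rw [s2, rows_stat hst M (fun σ' : Wd (m + 1) => ∑ τ, μ τ * g σ' τ)]
  congr 1
  apply Finset.sum_congr rfl
  intro σ _
  rw [Finset.mul_sum]
  apply Finset.sum_congr rfl
  intro τ _
  ring

/-- the exact value as an average over the configurations of the finite cylinder -/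
theorem oneArm_eq {f : List Bool → List Bool → ℕ} (hf : FSpec f) {n : ℕ} (hn : 0 < n) (M : ℕ)
    (μ : Wd (2 * n - 1 + 1) → ℝ) (hμ0 : ∀ σ, 0 ≤ μ σ) (hμ : ∑ σ, μ σ = 1)
    (hst : ∀ σ, ∑ c : Fin (2 * n - 1 + 1) → Bool, push (Tc (2 * n - 1) c) μ σ
      = 2 ^ (2 * n - 1 + 1) * μ σ) :
    oneArm n = (1/2)^(CE n M).card * ∑ F ∈ (CE n M).powerset, ∑ σ, ∑ τ, μ σ * μ τ *
      ind (f (rows (2 * n - 1) (dn n M F) M σ).1 (rows (2 * n - 1) (up n M F) M τ).1 = 0) := by
  have hv := Pool.Agent.H863R2.Cyl.onearm_value hn hf μ hμ0 hμ hst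
  have hv' : ∑ σ, ∑ τ, μ σ * μ τ * ind (f σ.1 τ.1 = 0) = oneArm n := by
    rw [← hv]
    apply Finset.sum_congr rfl
    intro σ _
    apply Finset.sum_congr rfl
    intro τ _
    by_cases h : f σ.1 τ.1 = 0
    · rw [if_pos h, ind_of h]; ring
    · rw [if_neg h, ind_not_of h]; ring
  have e1 := avg_rows hst M (fun σ τ => ind (f σ.1 τ.1 = 0))
  rw [hv'] at e1
  have e2 := sum_config (n := n) (M := M) hn (fun a b =>
    ∑ σ, ∑ τ, μ σ * μ τ * ind (f (rows (2 * n - 1) (ext a) M σ).1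
      (rows (2 * n - 1) (ext b) M τ).1 = 0))
  rw [e1] at e2
  have e3 : ∑ F ∈ (CE n M).powerset, ∑ σ, ∑ τ, μ σ * μ τ *
      ind (f (rows (2 * n - 1) (dn n M F) M σ).1 (rows (2 * n - 1) (up n M F) M τ).1 = 0)
      = (2 ^ (2 * n - 1 + 1)) ^ M * ((2 ^ (2 * n - 1 + 1)) ^ M * oneArm n) := by
    rw [← e2]
    apply Finset.sum_congr rfl
    intro F _
    have r1 : ∀ σ, rows (2 * n - 1) (ext (fun t : Fin M => dn n M F t)) M σ
        = rows (2 * n - 1) (dn n M F) M σ := fun σ => rows_congr (fun t ht => by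
      unfold ext; rw [dif_pos ht]) σ
    have r2 : ∀ σ, rows (2 * n - 1) (ext (fun t : Fin M => up n M F t)) M σ
        = rows (2 * n - 1) (up n M F) M σ := fun σ => rows_congr (fun t ht => by
      unfold ext; rw [dif_pos ht]) σ
    simp only [r1, r2]
  rw [e3, card_CE]
  have e4 : (1/2 : ℝ) ^ ((2 * n) * (2 * M)) *
      ((2 ^ (2 * n - 1 + 1)) ^ M * (2 ^ (2 * n - 1 + 1)) ^ M) = 1 := by
    rw [show 2 * n - 1 + 1 = 2 * n by omega, ← pow_mul, ← pow_add, one_div, inv_pow,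
      show (2 * n) * (2 * M) = 2 * n * M + 2 * n * M by ring]
    exact inv_mul_cancel₀ (by positivity)
  calc oneArm n = (1/2 : ℝ) ^ ((2 * n) * (2 * M)) *
      ((2 ^ (2 * n - 1 + 1)) ^ M * (2 ^ (2 * n - 1 + 1)) ^ M) * oneArm n := by rw [e4, one_mul]
    _ = _ := by ring

theorem avg_le {X : Type*} [Fintype X] (μ : X → ℝ) (h0 : ∀ σ, 0 ≤ μ σ) (h1 : ∑ σ, μ σ = 1)
    (P : X → X → Prop) (Q : Prop) (h : ∀ σ τ, P σ τ → Q) :
    ∑ σ, ∑ τ, μ σ * μ τ * ind (P σ τ) ≤ ind Q := by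
  calc ∑ σ, ∑ τ, μ σ * μ τ * ind (P σ τ) ≤ ∑ σ, ∑ τ, μ σ * μ τ * ind Q := by
        apply Finset.sum_le_sum; intro σ _
        apply Finset.sum_le_sum; intro τ _
        exact mul_le_mul_of_nonneg_left (ind_mono (h σ τ)) (mul_nonneg (h0 σ) (h0 τ))
    _ = ind Q := by
        simp only [← Finset.sum_mul, ← Finset.mul_sum, h1, mul_one, one_mul]

theorem le_avg {X : Type*} [Fintype X] (μ : X → ℝ) (h0 : ∀ σ, 0 ≤ μ σ) (h1 : ∑ σ, μ σ = 1)
    (P : X → X → Prop) (Q : Prop) (h : ∀ σ τ, Q → P σ τ) :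
    ind Q ≤ ∑ σ, ∑ τ, μ σ * μ τ * ind (P σ τ) := by
  calc ind Q = ∑ σ, ∑ τ, μ σ * μ τ * ind Q := by
        simp only [← Finset.sum_mul, ← Finset.mul_sum, h1, mul_one, one_mul]
    _ ≤ _ := by
        apply Finset.sum_le_sum; intro σ _
        apply Finset.sum_le_sum; intro τ _
        exact mul_le_mul_of_nonneg_left (ind_mono (h σ τ)) (mul_nonneg (h0 σ) (h0 τ))

/-- upper bound for the exact value -/
theorem oneArm_le {n M k : ℕ} (hn : 0 < n) (hk : k ≤ n) (hM : 2 * k ≤ M) :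
    oneArm n ≤ Pr (fun _ => (1/2 : ℝ)) (CE n M) (fun F => ∃ w : Vtx,
      (w.1 ≤ -k ∨ (k : ℤ) ≤ w.1 ∨ w.2 ≤ -k ∨ (k : ℤ) ≤ w.2) ∧ Reach (per n F) (0, 0) w) := by
  obtain ⟨f, hf⟩ := Pool.Agent.H863R2.Cyl.exists_F
  obtain ⟨μ, hμ0, hμ, hst, -, -⟩ := Pool.Agent.H863R2.Cyl.markov_exists (2 * n - 1)
  rw [oneArm_eq hf hn M μ hμ0 hμ hst, Pr_half]
  apply mul_le_mul_of_nonneg_left _ (by positivity)
  apply Finset.sum_le_sum
  intro F _
  exact avg_le μ hμ0 hμ _ _ (fun σ τ h => far_of_zero hf hn hk hM σ τ h)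

/-- lower bound for the exact value -/
theorem le_oneArm {n : ℕ} (hn : 0 < n) (M : ℕ) :
    Pr (fun _ => (1/2 : ℝ)) (CE n M) (fun F => Reach (per n F) (0, 0) (n, n)) ≤ oneArm n := by
  obtain ⟨f, hf⟩ := Pool.Agent.H863R2.Cyl.exists_F
  obtain ⟨μ, hμ0, hμ, hst, -, -⟩ := Pool.Agent.H863R2.Cyl.markov_exists (2 * n - 1)
  rw [oneArm_eq hf hn M μ hμ0 hμ hst, Pr_half]
  apply mul_le_mul_of_nonneg_left _ (by positivity)
  apply Finset.sum_le_sum
  intro F hF
  exact le_avg μ hμ0 hμ _ _ (fun σ τ h => zero_of_reach hf hn (Finset.mem_powerset.1 hF) σ τ h)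

/-- comparison of the exact value with the one-arm probability of the plane -/
theorem oneArm_le_arm {n k : ℕ} (hk : 2 * k < n) : oneArm n ≤ arm (1/2) k :=
  (oneArm_le (M := 2 * k) (by omega) (by omega) le_rfl).trans (upper hk le_rfl)

theorem arm_le_oneArm {n a : ℕ} (ha : 0 < a) (h1 : n ≤ 20 * a) (h2 : 8 * a < n) :
    (1/2 : ℝ)^378 * arm (1/2) (4 * a) ≤ oneArm n :=
  (lower (M := 2 * n) ha h1 h2 le_rfl).trans (le_oneArm (by omega) _)

end H906.Cyl
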