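import Pool.Agent.H906R2.Arm.Box
import Pool.Agent.H160R2.HL.Pas
import Pool.Agent.H974R3.Cons

/-!
The one-arm exponent `5/48` of critical bond percolation on the square lattice.
-/

namespace H906.Cyl
open H974 Finset Filter
open Pool.Agent.H863R2.Cyl (oneArm pas)

/-- the exact value on the even cylinder has exponent `5/48` -/
theorem oneArm_asymp (δ : ℝ) (hδ : 0 < δ) : ∀ᶠ n : ℕ in atTop,
    (n : ℝ) ^ (-(5 / 48 : ℝ) - δ) ≤ oneArm n ∧ oneArm n ≤ (n : ℝ) ^ (-(5 / 48 : ℝ) + δ) := by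
  obtain ⟨n0, h⟩ := Pool.Agent.H160R2.HL.oneArm_asymp δ hδ
  filter_upwards [eventually_ge_atTop n0] with n hn
  exact h n hn

theorem ev_rpow_ge (C : ℝ) {e : ℝ} (he : 0 < e) : ∀ᶠ k : ℕ in atTop, C ≤ (k : ℝ) ^ e :=
  ((tendsto_rpow_atTop he).comp tendsto_natCast_atTop_atTop).eventually_ge_atTop C

/-- **upper bound** for the one-arm probability -/
theorem arm_upper (δ : ℝ) (hδ : 0 < δ) : ∀ᶠ k : ℕ in atTop,
    arm (1/2) k ≤ (k : ℝ) ^ (-(5 / 48 : ℝ) + δ) := by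
  set e := min (δ / 2) (5 / 48) with he
  have he0 : 0 < e := by rw [he]; positivity
  have he1 : e ≤ 5 / 48 := min_le_right _ _
  have he2 : e ≤ δ / 2 := min_le_left _ _
  obtain ⟨n0, h⟩ := eventually_atTop.mp (oneArm_asymp e he0)
  filter_upwards [ev_rpow_ge (2 ^ 378) (show 0 < δ - e by linarith),
    eventually_ge_atTop (n0 + 8)] with k hk hk2
  have ha : 0 < k / 4 := by omega
  have h1 := arm_le_oneArm (n := 10 * (k / 4)) (a := k / 4) ha (by omega) (by omega)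
  have h2 := (h (10 * (k / 4)) (by omega)).2
  have h3 : arm (1/2) k ≤ arm (1/2) (4 * (k / 4)) := arm_anti (by norm_num) (by norm_num) (by omega)
  have hkpos : (0 : ℝ) < k := by exact_mod_cast (show 0 < k by omega)
  have h4 : (((10 * (k / 4) : ℕ)) : ℝ) ^ (-(5 / 48 : ℝ) + e) ≤ (k : ℝ) ^ (-(5 / 48 : ℝ) + e) := by
    apply Real.rpow_le_rpow_of_nonpos hkpos
    · exact_mod_cast (show k ≤ 10 * (k / 4) by omega)
    · linarith
  have h5 : arm (1/2) k ≤ 2 ^ 378 * (k : ℝ) ^ (-(5 / 48 : ℝ) + e) := by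
    have : (1/2 : ℝ) ^ 378 * arm (1/2) k ≤ (k : ℝ) ^ (-(5 / 48 : ℝ) + e) :=
      le_trans (le_trans (mul_le_mul_of_nonneg_left h3 (by positivity)) h1) (le_trans h2 h4)
    have e2 : (2 : ℝ) ^ 378 * ((1/2 : ℝ) ^ 378 * arm (1/2) k) = arm (1/2) k := by
      rw [← mul_assoc, ← mul_pow]; norm_num
    rw [← e2]
    exact mul_le_mul_of_nonneg_left this (by positivity)
  refine le_trans h5 (le_trans (mul_le_mul_of_nonneg_right hk (by positivity)) (le_of_eq ?_))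
  rw [← Real.rpow_add hkpos]
  congr 1
  ring

/-- **lower bound** for the one-arm probability -/
theorem arm_lower (δ : ℝ) (hδ : 0 < δ) : ∀ᶠ k : ℕ in atTop,
    (k : ℝ) ^ (-(5 / 48 : ℝ) - δ) ≤ arm (1/2) k := by
  obtain ⟨n0, h⟩ := eventually_atTop.mp (oneArm_asymp (δ / 2) (by positivity))
  filter_upwards [ev_rpow_ge ((3 : ℝ) ^ (5 / 48 + δ / 2)) (show 0 < δ / 2 by linarith),
    eventually_ge_atTop (n0 + 1)] with k hk hk2
  have h1 := oneArm_le_arm (n := 2 * k + 1) (k := k) (by omega)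
  have h2 := (h (2 * k + 1) (by omega)).1
  have hkpos : (0 : ℝ) < k := by exact_mod_cast (show 0 < k by omega)
  have h4 : ((3 * k : ℝ)) ^ (-(5 / 48 : ℝ) - δ / 2) ≤ (((2 * k + 1 : ℕ)) : ℝ) ^ (-(5 / 48 : ℝ) - δ / 2) := by
    apply Real.rpow_le_rpow_of_nonpos (by positivity)
    · have : 2 * k + 1 ≤ 3 * k := by omega
      exact_mod_cast this
    · linarith
  refine le_trans ?_ (le_trans h4 (le_trans h2 h1))
  have e1 : (k : ℝ) ^ (-(5 / 48 : ℝ) - δ) * (k : ℝ) ^ (δ / 2) = (k : ℝ) ^ (-(5 / 48 : ℝ) - δ / 2) := by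
    rw [← Real.rpow_add hkpos]; congr 1; ring
  have e3 : (3 : ℝ) ^ (-(5 / 48 : ℝ) - δ / 2) * (3 : ℝ) ^ (5 / 48 + δ / 2) = 1 := by
    rw [← Real.rpow_add (by norm_num)]
    rw [show (-(5 / 48 : ℝ) - δ / 2) + (5 / 48 + δ / 2) = 0 by ring, Real.rpow_zero]
  rw [Real.mul_rpow (by norm_num) hkpos.le, ← e1]
  have hA : 0 ≤ (k : ℝ) ^ (-(5 / 48 : ℝ) - δ) := by positivity
  have hB : 0 ≤ (3 : ℝ) ^ (-(5 / 48 : ℝ) - δ / 2) := by positivity
  calc (k : ℝ) ^ (-(5 / 48 : ℝ) - δ)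
      = (k : ℝ) ^ (-(5 / 48 : ℝ) - δ) *
        ((3 : ℝ) ^ (-(5 / 48 : ℝ) - δ / 2) * (3 : ℝ) ^ (5 / 48 + δ / 2)) := by rw [e3, mul_one]
    _ ≤ (k : ℝ) ^ (-(5 / 48 : ℝ) - δ) *
        ((3 : ℝ) ^ (-(5 / 48 : ℝ) - δ / 2) * (k : ℝ) ^ (δ / 2)) :=
        mul_le_mul_of_nonneg_left (mul_le_mul_of_nonneg_left hk hB) hA
    _ = _ := by ring

/-- `arm (1/2) n` is the probability that the cluster of the origin reaches distance `n`
under the critical bond percolation measure -/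
theorem arm_law (n : ℕ) : (bondLaw hlf).real
    {ω | ∃ w ∈ cluster0 ω, (n : ℤ) ≤ max |w.1| |w.2|} = arm (1/2) n := by
  have h : {ω : sqLattice.edgeSet → Bool | ∃ w ∈ cluster0 ω, (n : ℤ) ≤ max |w.1| |w.2|} = ArmE n := by
    apply Set.Subset.antisymm
    · exact Pool.Agent.H974R3.sup_sub_armE n
    · intro ω hω
      obtain ⟨v, ⟨_, hv⟩, hr⟩ := armE_iff.mp hω
      refine ⟨v, (open_reach ω _ _).mpr (hr.mono Set.inter_subset_left), ?_⟩
      rcases hv with h | h | h | h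
      · exact le_trans (le_trans (by rw [h, neg_neg]) (neg_le_abs v.1)) (le_max_left _ _)
      · exact le_trans (le_trans h.ge (le_abs_self v.1)) (le_max_left _ _)
      · exact le_trans (le_trans (by rw [h, neg_neg]) (neg_le_abs v.2)) (le_max_right _ _)
      · exact le_trans (le_trans h.ge (le_abs_self v.2)) (le_max_right _ _)
  rw [h, law_armE]
  rfl

/-- **the one-arm exponent is `5/48`** -/
theorem arm_exponent (δ : ℝ) (hδ : 0 < δ) : ∀ᶠ n : ℕ in atTop,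
    (n : ℝ) ^ (-(5 / 48 : ℝ) - δ) ≤ (bondLaw hlf).real
      {ω | ∃ w ∈ cluster0 ω, (n : ℤ) ≤ max |w.1| |w.2|} ∧
    (bondLaw hlf).real {ω | ∃ w ∈ cluster0 ω, (n : ℤ) ≤ max |w.1| |w.2|}
      ≤ (n : ℝ) ^ (-(5 / 48 : ℝ) + δ) := by
  filter_upwards [arm_upper δ hδ, arm_lower δ hδ] with n h1 h2
  rw [arm_law]
  exact ⟨h2, h1⟩

theorem arm_tendsto : Tendsto (fun n : ℕ => Real.log ((bondLaw hlf).real
    {ω | ∃ w ∈ cluster0 ω, (n : ℤ) ≤ max |w.1| |w.2|}) / Real.log n) atTop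
    (nhds (-(5 / 48 : ℝ))) := by
  rw [Metric.tendsto_atTop]
  intro ε hε
  obtain ⟨N, hN⟩ := eventually_atTop.mp (arm_exponent (ε / 2) (by positivity))
  refine ⟨max N 2, fun n hn => ?_⟩
  obtain ⟨h1, h2⟩ := hN n (le_trans (le_max_left _ _) hn)
  have hn2 : 2 ≤ n := le_trans (le_max_right _ _) hn
  have hn0 : (0 : ℝ) < n := by exact_mod_cast (show 0 < n by omega)
  have hlog : 0 < Real.log n := Real.log_pos (by exact_mod_cast (show 1 < n by omega))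
  have hp : 0 < (n : ℝ) ^ (-(5 / 48 : ℝ) - ε / 2) := Real.rpow_pos_of_pos hn0 _
  have l1 := Real.log_le_log hp h1
  have l2 := Real.log_le_log (lt_of_lt_of_le hp h1) h2
  rw [Real.log_rpow hn0] at l1 l2
  rw [Real.dist_eq, abs_lt]
  constructor
  · have := (le_div_iff₀ hlog).mpr l1
    linarith
  · have := (div_le_iff₀ hlog).mpr l2
    linarith

end H906.Cyl
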