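import Pool.Agent.H974R2.Circ

/-!
Critical bond percolation on the even cylinder `ℤ²/(n,n)` (height `2M` rows of the lattice
rotated by 45 degrees), seen through its periodic lift to the plane.  The probability that the
origin is connected to `(n,n)` in the lift (a non-contractible open circuit through the cluster of
the marked vertex) is comparable to the one-arm probability of the plane.
-/

namespace H906.Cyl
open H974 Finset

/-- the second diagonal coordinate of an edge -/
def dco (e : Edg) : ℤ := if e.2.2 then e.1 - e.2.1 else e.1 - e.2.1 - 1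

/-- the representative modulo translation by `(n, n)` -/
def red (n : ℕ) (e : Edg) : Edg :=
  (e.1 - n * ((e.1 + e.2.1) / (2 * n)), e.2.1 - n * ((e.1 + e.2.1) / (2 * n)), e.2.2)

/-- the edge with diagonal coordinates `s`, `d` -/
def edz (s d : ℤ) : Edg :=
  if (s + d) % 2 = 0 then ((s + d) / 2, (s - d) / 2, true)
  else ((s + d + 1) / 2, (s - d - 1) / 2, false)

/-- the edges of the cylinder of circumference `2n` and height `2M` -/
def CE (n M : ℕ) : Finset Edg :=
  (Finset.range (2 * n) ×ˢ Finset.range (2 * M)).image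
    (fun p => edz (p.1 : ℤ) ((p.2 : ℤ) - M))

theorem mem_CE {n M : ℕ} {e : Edg} : e ∈ CE n M ↔
    (0 ≤ e.1 + e.2.1 ∧ e.1 + e.2.1 < 2 * n) ∧ (-(M : ℤ) ≤ dco e ∧ dco e < M) := by
  obtain ⟨x, y, b⟩ := e
  unfold CE edz dco
  simp only [mem_image, mem_product, mem_range, Prod.exists]
  constructor
  · rintro ⟨s, r, ⟨h1, h2⟩, h3⟩
    split_ifs at h3 with h4
    · simp only [Prod.mk.injEq] at h3
      obtain ⟨h5, h6, h7⟩ := h3
      subst h7
      simp only [if_true]
      omega
    · simp only [Prod.mk.injEq] at h3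
      obtain ⟨h5, h6, h7⟩ := h3
      subst h7
      simp only [Bool.false_eq_true, if_false]
      omega
  · rintro ⟨⟨h1, h2⟩, h3, h4⟩
    cases b
    · simp only [Bool.false_eq_true, if_false] at h3 h4
      refine ⟨(x + y).toNat, (x - y - 1 + M).toNat, ⟨by omega, by omega⟩, ?_⟩
      rw [if_neg (by omega)]
      simp only [Prod.mk.injEq, and_true]
      omega
    · simp only [if_true] at h3 h4
      refine ⟨(x + y).toNat, (x - y + M).toNat, ⟨by omega, by omega⟩, ?_⟩
      rw [if_pos (by omega)]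
      simp only [Prod.mk.injEq, and_true]
      omega

theorem dco_red (n : ℕ) (e : Edg) : dco (red n e) = dco e := by
  obtain ⟨x, y, _ | _⟩ := e <;> simp only [red, dco, if_true, Bool.false_eq_true, if_false] <;> ring

theorem red_mem {n M : ℕ} (hn : 0 < n) {e : Edg} (h1 : -(M : ℤ) ≤ dco e) (h2 : dco e < M) :
    red n e ∈ CE n M := by
  rw [mem_CE, dco_red]
  refine ⟨?_, h1, h2⟩
  obtain ⟨x, y, b⟩ := e
  simp only [red]
  have h3 := Int.emod_nonneg (x + y) (show (2 * n : ℤ) ≠ 0 by omega)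
  have h4 := Int.emod_lt_of_pos (x + y) (show (0 : ℤ) < 2 * n by omega)
  have h5 := Int.mul_ediv_add_emod (x + y) (2 * n)
  constructor
  · nlinarith
  · nlinarith

/-- the periodic lift of a configuration of the cylinder -/
def per (n : ℕ) (F : Finset Edg) : Set Edg := {e | red n e ∈ F}

theorem per_mono (n : ℕ) {F G : Finset Edg} (h : F ⊆ G) : per n F ⊆ per n G := fun _ he => h he

theorem red_shift {n : ℕ} (hn : 0 < n) (e : Edg) (k : ℤ) :
    red n (e.1 + n * k, e.2.1 + n * k, e.2.2) = red n e := by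
  obtain ⟨x, y, b⟩ := e
  simp only [red]
  have h : (x + n * k + (y + n * k)) / (2 * n : ℤ) = (x + y) / (2 * n) + k := by
    rw [show x + n * k + (y + n * k) = (x + y) + (2 * n) * k by ring]
    rw [Int.add_mul_ediv_left _ _ (show (2 * n : ℤ) ≠ 0 by omega)]
  rw [h]
  simp only [Prod.mk.injEq, and_true]
  constructor <;> ring

theorem per_trl {n : ℕ} (hn : 0 < n) (F : Finset Edg) : (trl n n).φ '' per n F = per n F := by
  ext e
  constructor
  · rintro ⟨e', he', rfl⟩
    have := red_shift hn e' 1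
    simp only [mul_one] at this
    show red n _ ∈ F
    rw [trl_φ, this]
    exact he'
  · intro he
    refine ⟨(e.1 - n, e.2.1 - n, e.2.2), ?_, ?_⟩
    · have := red_shift hn e (-1)
      show red n _ ∈ F
      rw [show (e.1 - (n:ℤ), e.2.1 - (n:ℤ), e.2.2) = (e.1 + n * (-1), e.2.1 + n * (-1), e.2.2) by
        simp only [Prod.mk.injEq, and_true]; constructor <;> ring, this]
      exact he
    · rw [trl_φ]; simp

theorem per_reach_shift {n : ℕ} (hn : 0 < n) {F : Finset Edg} {u v : Vtx}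
    (h : Reach (per n F) u v) :
    Reach (per n F) (u.1 + n, u.2 + n) (v.1 + n, v.2 + n) := by
  have := (trl n n).reach h
  rw [per_trl hn, trl_ψ, trl_ψ] at this
  exact this

/-! ### transport of probabilities -/

theorem Ex_image {E E' : Type*} [DecidableEq E] [DecidableEq E'] (p : E' → ℝ) (f : E → E')
    (S : Finset E) (hf : Set.InjOn f S) (g : Finset E' → ℝ) :
    Ex p (S.image f) g = Ex (fun e => p (f e)) S (fun F => g (F.image f)) := by
  induction S using Finset.induction_on generalizing g with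
  | empty => simp [Ex_empty]
  | insert a S ha ih =>
    have hf' : Set.InjOn f S := hf.mono (by simp)
    have hna : f a ∉ S.image f := by
      intro h
      obtain ⟨b, hb, hab⟩ := Finset.mem_image.1 h
      have : b = a := hf (by simp [hb]) (by simp) hab
      exact ha (this ▸ hb)
    rw [Finset.image_insert, Ex_insert p hna, Ex_insert _ ha, ih hf', ih hf']
    simp only [Finset.image_insert]

theorem Pr_red {n : ℕ} {q : ℝ} {S B : Finset Edg} (hinj : Set.InjOn (red n) B)
    (hS : B.image (red n) ⊆ S) (A : Finset Edg → Prop) :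
    Pr (fun _ => q) S (fun F => A (B.filter (fun e => red n e ∈ F))) = Pr (fun _ => q) B A := by
  have e1 : Pr (fun _ => q) S (fun F => A (B.filter (fun e => red n e ∈ F)))
      = Pr (fun _ => q) (B.image (red n)) (fun F => A (B.filter (fun e => red n e ∈ F))) := by
    apply Pr_local hS
    intro F _
    have : B.filter (fun e => red n e ∈ F) =
        B.filter (fun e => red n e ∈ F ∩ B.image (red n)) := by
      apply Finset.filter_congr
      intro e he
      rw [Finset.mem_inter]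
      exact ⟨fun h => ⟨h, Finset.mem_image_of_mem _ he⟩, fun h => h.1⟩
    rw [this]
  rw [e1]
  unfold Pr
  rw [Ex_image _ _ _ hinj]
  apply Ex_congr
  intro F hF
  apply ind_congr
  have : B.filter (fun e => red n e ∈ F.image (red n)) = F := by
    ext e
    rw [Finset.mem_filter, Finset.mem_image]
    constructor
    · rintro ⟨h1, a, h2, h3⟩
      have := hinj (Finset.mem_coe.2 (hF h2)) (Finset.mem_coe.2 h1) h3
      exact this ▸ h2
    · intro h
      exact ⟨hF h, e, h, rfl⟩
  show A (B.filter (fun e => red n e ∈ F.image (red n))) ↔ A F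
  rw [this]

/-- a rectangle which is thin in one direction injects into the cylinder -/
theorem red_inj_x {n : ℕ} {a b c d : ℤ} (h : b - a < n) :
    Set.InjOn (red n) (RE a b c d : Set Edg) := by
  rintro ⟨x, y, bo⟩ h1 ⟨x', y', bo'⟩ h2 h3
  simp only [red, Prod.mk.injEq] at h3
  obtain ⟨h4, h5, h6⟩ := h3
  subst h6
  have hx : a ≤ x ∧ x ≤ b := by
    cases bo <;> simp only [mem_coe, mem_RE_false, mem_RE_true] at h1 <;> omega
  have hx' : a ≤ x' ∧ x' ≤ b := by
    cases bo <;> simp only [mem_coe, mem_RE_false, mem_RE_true] at h2 <;> omega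
  set K := (x + y) / (2 * (n : ℤ))
  set K' := (x' + y') / (2 * (n : ℤ))
  have hK : K = K' := by
    by_contra hne
    rcases lt_or_gt_of_ne hne with h7 | h7
    · have : (n : ℤ) * (K' - K) ≥ n := by nlinarith
      nlinarith
    · have : (n : ℤ) * (K - K') ≥ n := by nlinarith
      nlinarith
  rw [hK] at h4 h5
  simp only [Prod.mk.injEq, and_true]
  constructor <;> linarith

theorem red_inj_y {n : ℕ} {a b c d : ℤ} (h : d - c < n) :
    Set.InjOn (red n) (RE a b c d : Set Edg) := by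
  rintro ⟨x, y, bo⟩ h1 ⟨x', y', bo'⟩ h2 h3
  simp only [red, Prod.mk.injEq] at h3
  obtain ⟨h4, h5, h6⟩ := h3
  subst h6
  have hx : c ≤ y ∧ y ≤ d := by
    cases bo <;> simp only [mem_coe, mem_RE_false, mem_RE_true] at h1 <;> omega
  have hx' : c ≤ y' ∧ y' ≤ d := by
    cases bo <;> simp only [mem_coe, mem_RE_false, mem_RE_true] at h2 <;> omega
  set K := (x + y) / (2 * (n : ℤ))
  set K' := (x' + y') / (2 * (n : ℤ))
  have hK : K = K' := by
    by_contra hne
    rcases lt_or_gt_of_ne hne with h7 | h7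
    · have : (n : ℤ) * (K' - K) ≥ n := by nlinarith
      nlinarith
    · have : (n : ℤ) * (K - K') ≥ n := by nlinarith
      nlinarith
  rw [hK] at h4 h5
  simp only [Prod.mk.injEq, and_true]
  constructor <;> linarith

theorem RE_dco {a b c d : ℤ} {e : Edg} (h : e ∈ RE a b c d) :
    a - d ≤ dco e ∧ dco e < b - c := by
  obtain ⟨x, y, _ | _⟩ := e
  · simp only [mem_RE_false] at h
    simp only [dco, Bool.false_eq_true, if_false]
    omega
  · simp only [mem_RE_true] at h
    simp only [dco, if_true]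
    omega

theorem image_red_sub {n M : ℕ} (hn : 0 < n) {a b c d : ℤ} (h1 : -(M : ℤ) ≤ a - d)
    (h2 : b - c ≤ M) : (RE a b c d).image (red n) ⊆ CE n M := by
  intro e he
  obtain ⟨e', he', rfl⟩ := Finset.mem_image.1 he
  have := RE_dco he'
  exact red_mem hn (by omega) (by omega)

/-! ### the upper bound -/

theorem upper {n M k : ℕ} (hk : 2 * k < n) (hM : 2 * k ≤ M) :
    Pr (fun _ => (1/2 : ℝ)) (CE n M) (fun F => ∃ w : Vtx,
      (w.1 ≤ -k ∨ (k : ℤ) ≤ w.1 ∨ w.2 ≤ -k ∨ (k : ℤ) ≤ w.2) ∧ Reach (per n F) (0, 0) w)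
      ≤ arm (1/2) k := by
  have ok := okq (q := 1/2) (by norm_num) (by norm_num)
  have h := Pr_red (n := n) (q := 1/2) (S := CE n M) (B := boxE k)
    (by unfold boxE; exact red_inj_x (by omega))
    (by unfold boxE; exact image_red_sub (by omega) (by omega) (by omega)) (Arm k)
  unfold arm
  rw [← h]
  apply Pr_mono ok
  rintro F _ ⟨w, hw, hr⟩
  obtain ⟨w', h1, h2, h3⟩ := first_exit (a := -k) (b := k) (c := -k) (d := k)
    (by unfold inR; simp only; omega) hr hw
  refine ⟨w', ⟨h1, h2⟩, h3.mono ?_⟩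
  rintro e ⟨h4, h5⟩
  refine ⟨?_, h5⟩
  rw [Finset.mem_coe, Finset.mem_filter]
  exact ⟨h5, h4⟩

/-! ### the lower bound -/

/-- the lift restricted to a finite set -/
noncomputable def pf (n : ℕ) (B F : Finset Edg) : Finset Edg := B.filter (fun e => red n e ∈ F)

theorem mem_pf {n : ℕ} {B F : Finset Edg} {e : Edg} : e ∈ pf n B F ↔ e ∈ B ∧ red n e ∈ F := by
  unfold pf; rw [Finset.mem_filter]

theorem pf_mono_left {n : ℕ} {B B' F : Finset Edg} (h : B ⊆ B') : pf n B F ⊆ pf n B' F := by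
  intro e he
  rw [mem_pf] at he ⊢
  exact ⟨h he.1, he.2⟩

theorem pf_mono_right {n : ℕ} {B F F' : Finset Edg} (h : F ⊆ F') : pf n B F ⊆ pf n B F' := by
  intro e he
  rw [mem_pf] at he ⊢
  exact ⟨he.1, h he.2⟩

theorem pf_per {n : ℕ} {B F : Finset Edg} : (↑(pf n B F) : Set Edg) ⊆ per n F := by
  intro e he
  rw [Finset.mem_coe, mem_pf] at he
  exact he.2

/-- deterministic part of the lower bound -/
theorem connect {n : ℕ} (hn : 0 < n) {b : ℤ} (hb : 0 < b) {F G : Finset Edg}
    (hG : ∀ e ∈ RE (-(2 * b)) (2 * b) (-(2 * b)) (2 * b), red n e ∈ F → e ∈ G)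
    (hGF : (↑G : Set Edg) ⊆ per n F)
    (_hbn : 4 * b < n)
    (h1 : ∃ v, (v.1 = -(2 * b) ∨ v.1 = 2 * b ∨ v.2 = -(2 * b) ∨ v.2 = 2 * b) ∧
      Reach (↑G ∩ ↑(RE (-(2 * b)) (2 * b) (-(2 * b)) (2 * b))) (0, 0) v)
    (h2 : Circ b (2 * b) G) (h3 : LRc (-(2 * b)) (n + 2 * b) (-b) b G)
    (h4 : TBc (n - b) (n + b) (-(2 * b)) (n + 2 * b) G) :
    Reach (per n F) (0, 0) (n, n) := by
  obtain ⟨z, hz⟩ := circ_meet hb.le (by omega) h2
  obtain ⟨v, hv, hr⟩ := h1
  have r1 : Reach (per n F) (0, 0) z :=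
    (hz (0, 0) v (by unfold inR; simp only; omega) hv hr).mono (fun e he => hGF he.1)
  obtain ⟨y, y', hy, hy', hL⟩ := h3
  obtain ⟨x, x', hx, hx', hT⟩ := h4
  have hL' : Reach (↑G ∩ ↑(RE (-(2 * b)) (n + 2 * b) (-b) b)) (-(2 * b), y) (n + 2 * b, y') :=
    hL.mono (Set.inter_subset_inter_right _ (by exact_mod_cast LRE_subset_RE))
  have hT' : Reach (↑G ∩ ↑(RE (n - b) (n + b) (-(2 * b)) (n + 2 * b))) (x, -(2 * b))
      (x', n + 2 * b) :=
    hT.mono (Set.inter_subset_inter_right _ (by exact_mod_cast TBE_subset_RE))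
  -- the two long paths meet
  have r2 : Reach (per n F) (-(2 * b), y) (x, -(2 * b)) := by
    have := cross_meet (F := (↑G : Set Edg)) (A := -(2 * b)) (B := n + 2 * b) (C := -(2 * b))
      (D := n + 2 * b) (a := n - b) (b := n + b) (c := -b) (d := b) (by omega) (by omega)
      (by omega) (by omega) (by omega) (by omega) hL' (by simp only; omega) (by simp only; omega)
      hT' (by simp only; omega) (by simp only; omega)
    exact this.mono (fun e he => hGF he.1)
  -- the horizontal path meets the circuit around the origin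
  have r3 : Reach (per n F) (-(2 * b), y) z := by
    obtain ⟨y1, y2, k1, k2, k3, k4⟩ := sub_LR (a := 0) (b := 2 * b) (c := -b) (d := b) (by omega)
      (by rintro x y ⟨-, h⟩ _ _; simp only [mem_coe, mem_RE_true] at h; omega)
      (by rintro x y ⟨-, h⟩ _ _; simp only [mem_coe, mem_RE_false] at h; omega) hL'
      (by simp only; omega) (by simp only; omega)
    have k5 : Reach (↑G ∩ ↑(RE (-(2 * b)) (2 * b) (-(2 * b)) (2 * b))) (0, y1) (2 * b, y2) := by
      apply k3.mono
      rintro e ⟨⟨h6, -⟩, h7⟩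
      refine ⟨h6, ?_⟩
      have := LRE_subset_RE (Finset.mem_coe.1 h7)
      exact Finset.mem_coe.2 (RE_subset (by omega) le_rfl (by omega) (by omega) this)
    have k6 := hz (0, y1) (2 * b, y2) (by unfold inR; simp only; omega) (by simp) k5
    exact (k4.mono (fun e he => hGF he.1)).trans (k6.mono (fun e he => hGF he.1))
  -- the vertical path meets the translated circuit
  have r4 : Reach (per n F) (x, -(2 * b)) (z.1 + n, z.2 + n) := by
    obtain ⟨x1, x2, k1, k2, k3, k4⟩ := sub_TB (a := n - b) (b := n + b) (c := n) (d := n + 2 * b)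
      (by omega)
      (by rintro x y ⟨-, h⟩ _ _; simp only [mem_coe, mem_RE_false] at h; omega)
      (by rintro x y ⟨-, h⟩ _ _; simp only [mem_coe, mem_RE_true] at h; omega) hT'
      (by simp only; omega) (by simp only; omega)
    have k5 : Reach (per n F ∩ ↑(RE (n - b) (n + b) n (n + 2 * b))) (x1, n) (x2, n + 2 * b) := by
      apply k3.mono
      rintro e ⟨⟨h6, -⟩, h7⟩
      refine ⟨hGF h6, ?_⟩
      exact Finset.mem_coe.2 (TBE_subset_RE (Finset.mem_coe.1 h7))
    have k6 : Reach (↑G ∩ ↑(RE (-(2 * b)) (2 * b) (-(2 * b)) (2 * b))) (x1 - n, 0)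
        (x2 - n, 2 * b) := by
      rw [← (trl n n).reach_iff, trl_ψ, trl_ψ]
      simp only [sub_add_cancel, zero_add]
      rw [show (2 * b + (n : ℤ)) = n + 2 * b by ring]
      apply k5.mono
      rintro ⟨ex, ey, eb⟩ ⟨h6, h7⟩
      refine ⟨(ex - n, ey - n, eb), ?_, by rw [trl_φ]; simp⟩
      have hm : ((ex - n, ey - n, eb) : Edg) ∈ RE (-(2 * b)) (2 * b) (-(2 * b)) (2 * b) := by
        cases eb
        · simp only [mem_coe, mem_RE_false] at h7 ⊢; omega
        · simp only [mem_coe, mem_RE_true] at h7 ⊢; omega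
      refine ⟨?_, Finset.mem_coe.2 hm⟩
      apply Finset.mem_coe.2
      apply hG _ hm
      have := red_shift hn (ex - n, ey - n, eb) 1
      simp only [mul_one, sub_add_cancel] at this
      rw [← this]
      exact h6
    have k7 := hz (x1 - n, 0) (x2 - n, 2 * b) (by unfold inR; simp only; omega) (by simp) k6
    have k8 := per_reach_shift hn (k7.mono (fun e he => hGF he.1))
    simp only [sub_add_cancel, zero_add] at k8
    exact (k4.mono (fun e he => hGF he.1)).trans k8
  have r5 := per_reach_shift hn r1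
  simp only [zero_add] at r5
  exact r1.trans (r3.symm.trans (r2.trans (r4.trans r5.symm)))

theorem hh_28 {a : ℤ} (ha : 0 < a) : (1/2 : ℝ)^95 ≤ hh (1/2) (28 * a) (4 * a) := by
  have g := hh_82 (n := 2 * a) (by omega)
  have s := hh_square (4 * a) (by omega)
  have e1 : 8 * (2 * a) = 16 * a := by ring
  have e2 : 2 * (2 * a) = 4 * a := by ring
  rw [e1, e2] at g
  have k := hh_glue (q := 1/2) (by norm_num) (by norm_num) (w1 := 16 * a) (w2 := 16 * a)
    (v := 4 * a) (h := 4 * a) (by omega) (by omega) (by omega) (by omega)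
  rw [show 16 * a + 16 * a - 4 * a = 28 * a by ring] at k
  have h1 : (1/2 : ℝ)^47 * (1/2 : ℝ)^47 ≤ hh (1/2) (16 * a) (4 * a) * hh (1/2) (16 * a) (4 * a) :=
    mul_le_mul g g (by positivity) (le_trans (by positivity) g)
  calc (1/2 : ℝ)^95 = (1/2 : ℝ)^47 * (1/2 : ℝ)^47 * (1/2) := by norm_num
    _ ≤ hh (1/2) (16 * a) (4 * a) * hh (1/2) (16 * a) (4 * a) * hh (1/2) (4 * a) (4 * a) :=
      mul_le_mul h1 s (by norm_num) (le_trans (by positivity) h1)
    _ ≤ _ := k

theorem pf_incr {n : ℕ} {S B : Finset Edg} {A : Finset Edg → Prop}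
    (hA : ∀ F G, F ⊆ G → A F → A G) : IncrE S (fun F => A (pf n B F)) :=
  fun F G h _ hF => hA _ _ (pf_mono_right h) hF

theorem lower {n M a : ℕ} (ha : 0 < a) (h1 : n ≤ 20 * a) (h2 : 8 * a < n)
    (hM : 2 * n ≤ M) :
    (1/2 : ℝ)^378 * arm (1/2) (4 * a) ≤ Pr (fun _ => (1/2 : ℝ)) (CE n M) (fun F =>
      Reach (per n F) (0, 0) (n, n)) := by
  have ok := okq (q := 1/2) (by norm_num) (by norm_num)
  have hn : 0 < n := by omega
  set b : ℤ := 2 * a with hb
  set B1 := boxE (4 * a) with hB1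
  set B3 := RE (-(2 * b)) (n + 2 * b) (-b) b with hB3
  set B4 := RE (n - b) (n + b) (-(2 * b)) (n + 2 * b) with hB4
  have hB1' : B1 = RE (-(2 * b)) (2 * b) (-(2 * b)) (2 * b) := by
    rw [hB1]; unfold boxE; rw [hb]; push_cast; congr 1 <;> ring
  have p1 : Pr (fun _ => (1/2 : ℝ)) (CE n M) (fun F => Arm (4 * a) (pf n B1 F))
      = arm (1/2) (4 * a) :=
    Pr_red (n := n) (S := CE n M) (B := B1)
      (by rw [hB1']; exact red_inj_x (by omega))
      (by rw [hB1']; exact image_red_sub (by omega) (by omega) (by omega)) (Arm (4 * a))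
  have p2 : Pr (fun _ => (1/2 : ℝ)) (CE n M) (fun F => Circ b (2 * b) (pf n B1 F))
      = Pr (fun _ => (1/2 : ℝ)) B1 (Circ b (2 * b)) :=
    Pr_red (n := n) (S := CE n M) (B := B1)
      (by rw [hB1']; exact red_inj_x (by omega))
      (by rw [hB1']; exact image_red_sub (by omega) (by omega) (by omega)) _
  have p3 : Pr (fun _ => (1/2 : ℝ)) (CE n M) (fun F => LRc (-(2 * b)) (n + 2 * b) (-b) b (pf n B3 F))
      = Pr (fun _ => (1/2 : ℝ)) B3 (LRc (-(2 * b)) (n + 2 * b) (-b) b) :=
    Pr_red (n := n) (S := CE n M) (B := B3) (by rw [hB3]; exact red_inj_y (by omega))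
      (by rw [hB3]; exact image_red_sub (by omega) (by omega) (by omega)) _
  have p4 : Pr (fun _ => (1/2 : ℝ)) (CE n M)
      (fun F => TBc (n - b) (n + b) (-(2 * b)) (n + 2 * b) (pf n B4 F))
      = Pr (fun _ => (1/2 : ℝ)) B4 (TBc (n - b) (n + b) (-(2 * b)) (n + 2 * b)) :=
    Pr_red (n := n) (S := CE n M) (B := B4) (by rw [hB4]; exact red_inj_x (by omega))
      (by rw [hB4]; exact image_red_sub (by omega) (by omega) (by omega)) _
  have q2 : ((1/2 : ℝ)^47)^4 ≤ Pr (fun _ => (1/2 : ℝ)) B1 (Circ b (2 * b)) := by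
    have h := pr_Circ (q := 1/2) (by norm_num) (by norm_num) (R1 := b) (R2 := 2 * b)
      (by omega) (by omega) (S := B1) (by rw [hB1'])
    refine le_trans ?_ h
    have h5 := hh_82 (n := (a : ℤ)) (by omega)
    rw [show 2 * (2 * b) = 8 * (a : ℤ) by rw [hb]; ring, show 2 * b - b = 2 * (a : ℤ) by
      rw [hb]; ring]
    exact pow_le_pow_left₀ (by positivity) h5 4
  have hmono : (1/2 : ℝ)^95 ≤ hh (1/2) (n + 4 * b) (2 * b) := by
    have h5 := hh_28 (a := (a : ℤ)) (by omega)
    refine h5.trans ?_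
    rw [show 2 * b = 4 * (a : ℤ) by rw [hb]; ring]
    exact hh_mono (by norm_num) (by norm_num) (by omega) (by omega) le_rfl
  have q3 : (1/2 : ℝ)^95 ≤ Pr (fun _ => (1/2 : ℝ)) B3 (LRc (-(2 * b)) (n + 2 * b) (-b) b) := by
    rw [pr_LRc _ (by rw [hB3]; exact LRE_subset_RE)]
    rw [show (n : ℤ) + 2 * b - -(2 * b) = n + 4 * b by ring, show b - -b = 2 * b by ring]
    exact hmono
  have q4 : (1/2 : ℝ)^95 ≤ Pr (fun _ => (1/2 : ℝ)) B4
      (TBc (n - b) (n + b) (-(2 * b)) (n + 2 * b)) := by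
    rw [pr_TBc _ (by rw [hB4]; exact TBE_subset_RE)]
    rw [show (n : ℤ) + 2 * b - -(2 * b) = n + 4 * b by ring,
      show (n : ℤ) + b - (n - b) = 2 * b by ring]
    exact hmono
  have i1 := Pr_harris ok (S := CE n M) (pf_incr (n := n) (B := B1) (A := Arm (4 * a))
    (fun F G h hF => hF.mono h)) (pf_incr (n := n) (B := B1) (A := Circ b (2 * b))
    (fun F G h hF => hF.mono h))
  have i2 := Pr_harris ok (S := CE n M)
    (pf_incr (n := n) (B := B3) (A := LRc (-(2 * b)) (n + 2 * b) (-b) b)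
    (fun F G h hF => hF.mono h))
    (pf_incr (n := n) (B := B4) (A := TBc (n - b) (n + b) (-(2 * b)) (n + 2 * b))
    (fun F G h hF => hF.mono h))
  have c1 : IncrE (CE n M) (fun F => Arm (4 * a) (pf n B1 F) ∧ Circ b (2 * b) (pf n B1 F)) :=
    fun F G h _ hF => ⟨hF.1.mono (pf_mono_right h), hF.2.mono (pf_mono_right h)⟩
  have c2 : IncrE (CE n M) (fun F => LRc (-(2 * b)) (n + 2 * b) (-b) b (pf n B3 F) ∧
      TBc (n - b) (n + b) (-(2 * b)) (n + 2 * b) (pf n B4 F)) :=
    fun F G h _ hF => ⟨hF.1.mono (pf_mono_right h), hF.2.mono (pf_mono_right h)⟩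
  have i3 := Pr_harris ok c1 c2
  rw [p1, p2] at i1
  rw [p3, p4] at i2
  have ha0 := arm_nonneg (q := 1/2) (by norm_num) (by norm_num) (4 * a)
  have j1 : arm (1/2) (4 * a) * ((1/2 : ℝ)^47)^4 ≤ Pr (fun _ => (1/2 : ℝ)) (CE n M)
      (fun F => Arm (4 * a) (pf n B1 F) ∧ Circ b (2 * b) (pf n B1 F)) :=
    (mul_le_mul_of_nonneg_left q2 ha0).trans i1
  have j2 : (1/2 : ℝ)^95 * (1/2 : ℝ)^95 ≤ Pr (fun _ => (1/2 : ℝ)) (CE n M)
      (fun F => LRc (-(2 * b)) (n + 2 * b) (-b) b (pf n B3 F) ∧
      TBc (n - b) (n + b) (-(2 * b)) (n + 2 * b) (pf n B4 F)) :=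
    (mul_le_mul q3 q4 (by positivity) (le_trans (by positivity) q3)).trans i2
  have j0 : (0 : ℝ) ≤ arm (1/2) (4 * a) * ((1/2 : ℝ)^47)^4 := mul_nonneg ha0 (by positivity)
  have j3 := (mul_le_mul j1 j2 (by positivity) (le_trans j0 j1)).trans i3
  have e : (1/2 : ℝ)^378 * arm (1/2) (4 * a)
      = arm (1/2) (4 * a) * ((1/2 : ℝ)^47)^4 * ((1/2 : ℝ)^95 * (1/2 : ℝ)^95) := by
    rw [← pow_mul, ← pow_add, mul_assoc, ← pow_add, mul_comm]
  rw [e]
  refine j3.trans ?_
  apply Pr_mono ok
  rintro F _ ⟨⟨k1, k2⟩, k3, k4⟩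
  set G := pf n (B1 ∪ (B3 ∪ B4)) F with hG
  have s1 : pf n B1 F ⊆ G := pf_mono_left Finset.subset_union_left
  have s3 : pf n B3 F ⊆ G :=
    pf_mono_left (Finset.subset_union_left.trans Finset.subset_union_right)
  have s4 : pf n B4 F ⊆ G :=
    pf_mono_left (Finset.subset_union_right.trans Finset.subset_union_right)
  apply connect (b := b) hn (by omega) (G := G)
  · intro e he hF
    rw [hG, mem_pf]
    refine ⟨Finset.mem_union_left _ ?_, hF⟩
    rw [hB1']; exact he
  · exact pf_per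
  · omega
  · obtain ⟨v, hv, hr⟩ := k1.mono s1
    unfold onB at hv
    refine ⟨v, ?_, ?_⟩
    · have := hv.2
      push_cast at this
      omega
    · rw [← hB1']; exact hr
  · exact k2.mono s1
  · exact k3.mono s3
  · exact k4.mono s4

end H906.Cyl
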